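import Pool.Agent.Q123.Wt
import Pool.Agent.Q123.LinRes

set_option autoImplicit false

/-!
# A polymatroidal ideal whose second symbolic power is not componentwise linear

The ideal of the spanning trees of the complete graph on four vertices (six variables, one for
each edge; sixteen generators of degree three). The component of degree four of the second
symbolic power is generated by the three cycles of length four, and any two of these have a least
common multiple of degree six.
-/

universe u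

namespace Pool.Agent.Results.MP_d6f7e8_al.SpanningTreesK4

open MvPolynomial Pool.Agent.Q123

/-- `B` is the set of bases of a discrete polymatroid: a nonempty finite set of vectors with the
same coordinate sum which satisfies the exchange property. -/
structure IsPolymatroidBases {n : ℕ} (B : Set (Fin n →₀ ℕ)) : Prop where
  nonempty : B.Nonempty
  finite : B.Finite
  degree : ∃ d : ℕ, ∀ u ∈ B, ∑ i, u i = d
  exchange : ∀ u ∈ B, ∀ v ∈ B, ∀ i, v i < u i →
    ∃ j, u j < v j ∧ u - Finsupp.single i 1 + Finsupp.single j 1 ∈ B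

/-- A polymatroidal ideal: generated by the monomials `x ^ u`, `u` in the set of bases of a
discrete polymatroid. -/
def IsPolymatroidal {K : Type*} [Field K] {n : ℕ} (I : Ideal (MvPolynomial (Fin n) K)) : Prop :=
  ∃ B : Set (Fin n →₀ ℕ), IsPolymatroidBases B ∧
    I = Ideal.span ((fun u => monomial u (1 : K)) '' B)

/-- `p` is an associated prime of `I`: it is prime and equal to `I : f` for some `f`. -/
def IsAssociated {R : Type*} [CommRing R] (I p : Ideal R) : Prop :=
  p.IsPrime ∧ ∃ f : R, ∀ g : R, g ∈ p ↔ g * f ∈ I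

/-- The `k`-th symbolic power, the intersection of the `I ^ k S_P ∩ S` over the associated primes
`P` of `I`. -/
noncomputable def symbolicPower {R : Type*} [CommRing R] (I : Ideal R) (k : ℕ) : Ideal R :=
  ⨅ (p : Ideal R) (hp : IsAssociated I p),
    haveI : p.IsPrime := hp.1
    ((I ^ k).map (algebraMap R (Localization.AtPrime p))).comap
      (algebraMap R (Localization.AtPrime p))

/-- The ideal generated by the forms of degree `j` of `J`. -/
noncomputable def component {K : Type*} [Field K] {n : ℕ} (J : Ideal (MvPolynomial (Fin n) K)) (j : ℕ) :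
    Ideal (MvPolynomial (Fin n) K) :=
  Ideal.span {f | f ∈ J ∧ f.IsHomogeneous j}

/-- `J` is componentwise linear: for every `j` the ideal generated by the forms of degree `j` of
`J` has a linear resolution. -/
def IsComponentwiseLinear {K : Type*} [Field K] {n : ℕ} (J : Ideal (MvPolynomial (Fin n) K)) :
    Prop :=
  ∀ j : ℕ, HasLinearResolution j (component J j)

/-! ### The combinatorics of the spanning trees of `K₄`

The edges `12, 13, 14, 23, 24, 34` are numbered from `0` to `5`. -/

/-- the triangles of `K₄` -/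
def tri : Finset (Finset (Fin 6)) := {{0, 1, 3}, {0, 2, 4}, {1, 2, 5}, {3, 4, 5}}

/-- the spanning trees of `K₄`: the sets of three edges which are not triangles -/
def trees : Finset (Finset (Fin 6)) := (Finset.powersetCard 3 Finset.univ).filter (· ∉ tri)

/-- the bonds of `K₄` -/
def bonds : Finset (Finset (Fin 6)) :=
  {{0, 1, 2}, {0, 3, 4}, {1, 3, 5}, {2, 4, 5}, {1, 2, 3, 4}, {0, 2, 3, 5}, {0, 1, 4, 5}}

/-- the exponent of the squarefree monomial with support `T` -/
noncomputable def ind (T : Finset (Fin 6)) : Fin 6 →₀ ℕ :=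
  Finsupp.equivFunOnFinite.symm (fun i => if i ∈ T then 1 else 0)

@[simp] theorem ind_apply (T : Finset (Fin 6)) (i : Fin 6) : ind T i = if i ∈ T then 1 else 0 := rfl

theorem exch : ∀ T ∈ trees, ∀ T' ∈ trees, ∀ i ∈ T, i ∉ T' →
    ∃ j, j ∉ T ∧ j ∈ T' ∧ insert j (T.erase i) ∈ trees := by
  decide +kernel

theorem card_trees : ∀ T ∈ trees, T.card = 3 := by decide +kernel

theorem tree_bond : ∀ T ∈ trees, ∀ C ∈ bonds, ∃ i ∈ T, i ∈ C := by decide +kernel

theorem exists_tree : ∀ U : Finset (Fin 6), (∀ C ∈ bonds, ∃ i ∈ C, i ∈ U) →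
    ∃ T ∈ trees, T ⊆ U := by decide +kernel

theorem bond_compl : ∀ C ∈ bonds, ∀ C' ∈ bonds, C ≠ C' → ∃ i ∈ C', i ∉ C := by decide +kernel

theorem tree_insert : ∀ C ∈ bonds, ∀ i ∈ C, ∃ T ∈ trees, T ⊆ insert i Cᶜ := by decide +kernel

/-! ### The ideal -/

/-- the set of exponents -/
def B : Set (Fin 6 →₀ ℕ) := ind '' (trees : Set (Finset (Fin 6)))

/-- the ideal of the spanning trees -/
noncomputable def I (K : Type*) [Field K] : Ideal (MvPolynomial (Fin 6) K) :=
  Ideal.span ((fun u => monomial u (1 : K)) '' B)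

theorem isPolymatroidBases_B : IsPolymatroidBases B where
  nonempty := ⟨_, {0, 1, 2}, by decide +kernel, rfl⟩
  finite := (Finset.finite_toSet _).image _
  degree := ⟨3, by
    rintro _ ⟨T, hT, rfl⟩
    simp only [ind_apply]
    rw [Finset.sum_ite_mem, Finset.univ_inter, Finset.sum_const, smul_eq_mul, mul_one]
    exact card_trees T hT⟩
  exchange := by
    rintro _ ⟨T, hT, rfl⟩ _ ⟨T', hT', rfl⟩ i hi
    have hiT : i ∈ T := by
      by_contra h
      simp [h] at hi
    have hiT' : i ∉ T' := by
      intro h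
      simp [h, hiT] at hi
    obtain ⟨j, hj, hj', h⟩ := exch T hT T' hT' i hiT hiT'
    refine ⟨j, by simp [hj, hj'], insert j (T.erase i), h, ?_⟩
    ext l
    simp only [ind_apply, Finsupp.coe_add, Finsupp.coe_tsub, Pi.add_apply, Pi.sub_apply,
      Finsupp.single_apply, Finset.mem_insert, Finset.mem_erase]
    have hij : i ≠ j := by
      rintro rfl
      exact hj hiT
    by_cases h1 : l = j
    · subst h1
      simp [hj, hij]
    · by_cases h2 : l = i
      · subst h2
        simp [hiT, h1, Ne.symm h1]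
      · simp [h1, h2, Ne.symm h1, Ne.symm h2]

/-- the weight of a bond -/
def wt (C : Finset (Fin 6)) : Fin 6 → ℕ := fun i => if i ∈ C then 1 else 0

theorem weight_wt (C : Finset (Fin 6)) (u : Fin 6 →₀ ℕ) :
    Finsupp.weight (wt C) u = ∑ i ∈ C, u i := by
  rw [Finsupp.weight_apply, Finsupp.sum_fintype _ _ (by simp)]
  simp only [wt, smul_eq_mul, mul_ite, mul_one, mul_zero]
  rw [Finset.sum_ite_mem, Finset.univ_inter]

theorem I_le (K : Type*) [Field K] {C : Finset (Fin 6)} (hC : C ∈ bonds) :
    I K ≤ wtIdeal K (wt C) 1 := by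
  rw [I, Ideal.span_le]
  rintro _ ⟨_, ⟨T, hT, rfl⟩, rfl⟩
  rw [SetLike.mem_coe, monomial_mem_wtIdeal, weight_wt]
  obtain ⟨i, hi, hiC⟩ := tree_bond T hT C hC
  calc 1 = ind T i := by simp [hi]
    _ ≤ _ := Finset.single_le_sum (f := fun i => ind T i) (fun _ _ => Nat.zero_le _) hiC

theorem mem_I_iff {K : Type*} [Field K] {f : MvPolynomial (Fin 6) K} :
    f ∈ I K ↔ ∀ C ∈ bonds, f ∈ wtIdeal K (wt C) 1 := by
  constructor
  · intro h C hC
    exact I_le K hC h
  · intro h
    rw [I, mem_ideal_span_monomial_image]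
    intro u hu
    obtain ⟨T, hT, hTU⟩ := exists_tree (Finset.univ.filter (fun i => u i ≠ 0)) (by
      intro C hC
      have h1 := h C hC u hu
      rw [weight_wt] at h1
      by_contra hcon
      push Not at hcon
      have : ∑ i ∈ C, u i = 0 := Finset.sum_eq_zero fun i hi => by
        have := hcon i hi
        simpa using this
      omega)
    refine ⟨ind T, ⟨T, hT, rfl⟩, fun i => ?_⟩
    rw [ind_apply]
    split_ifs with hi
    · have := hTU hi
      simp at this
      omega
    · exact Nat.zero_le _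

theorem notMem_wtIdeal_compl (K : Type*) [Field K] (C : Finset (Fin 6)) :
    monomial (ind Cᶜ) (1 : K) ∉ wtIdeal K (wt C) 1 := by
  rw [monomial_mem_wtIdeal, weight_wt]
  have : ∑ i ∈ C, ind Cᶜ i = 0 := Finset.sum_eq_zero fun i hi => by simp [hi]
  omega

theorem isAssociated_iff {K : Type*} [Field K] {p : Ideal (MvPolynomial (Fin 6) K)} :
    IsAssociated (I K) p ↔ ∃ C ∈ bonds, p = wtIdeal K (wt C) 1 := by
  classical
  constructor
  · rintro ⟨hp, f, hf⟩
    have h1 : (bonds.filter (fun C => f ∉ wtIdeal K (wt C) 1)).inf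
        (fun C => wtIdeal K (wt C) 1) ≤ p := by
      intro g hg
      rw [hf, mem_I_iff]
      intro C hC
      by_cases hfC : f ∈ wtIdeal K (wt C) 1
      · exact Ideal.mul_mem_left _ _ hfC
      · refine Ideal.mul_mem_right _ _ ?_
        have hmem : C ∈ bonds.filter (fun C => f ∉ wtIdeal K (wt C) 1) :=
          Finset.mem_filter.2 ⟨hC, hfC⟩
        exact Finset.inf_le (f := fun C => wtIdeal K (wt C) 1) hmem hg
    obtain ⟨C, hC, hCp⟩ := hp.inf_le'.1 h1
    rw [Finset.mem_filter] at hC
    refine ⟨C, hC.1, le_antisymm (fun g hg => ?_) hCp⟩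
    have h2 := I_le K hC.1 ((hf g).1 hg)
    exact ((wtIdeal_one_isPrime (wt C)).mem_or_mem h2).resolve_right hC.2
  · rintro ⟨C, hC, rfl⟩
    refine ⟨wtIdeal_one_isPrime _, monomial (ind Cᶜ) 1, fun g => ⟨fun hg => ?_, fun hg => ?_⟩⟩
    · rw [mem_I_iff]
      intro C' hC'
      by_cases hCC : C = C'
      · subst hCC
        exact Ideal.mul_mem_right _ _ hg
      · refine Ideal.mul_mem_left _ _ ?_
        rw [monomial_mem_wtIdeal, weight_wt]
        obtain ⟨i, hi, hiC⟩ := bond_compl C hC C' hC' hCC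
        calc 1 = ind Cᶜ i := by simp [hiC]
          _ ≤ _ := Finset.single_le_sum (f := fun i => ind Cᶜ i) (fun _ _ => Nat.zero_le _) hi
    · exact ((wtIdeal_one_isPrime (wt C)).mem_or_mem (I_le K hC hg)).resolve_right
        (notMem_wtIdeal_compl K C)

theorem mem_I_of_le {K : Type*} [Field K] {T : Finset (Fin 6)} (hT : T ∈ trees) :
    monomial (ind T) (1 : K) ∈ I K := Ideal.subset_span ⟨_, ⟨T, hT, rfl⟩, rfl⟩

/-- If `u` has weight at least two on the bond `C`, then the product of `x ^ u` and of the square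
of the product of the variables outside `C` lies in `I ^ 2`. -/
theorem mul_mem_sq {K : Type*} [Field K] {C : Finset (Fin 6)} (hC : C ∈ bonds) {u : Fin 6 →₀ ℕ}
    (hu : 2 ≤ ∑ i ∈ C, u i) (a : K) :
    monomial (ind Cᶜ + ind Cᶜ) (1 : K) * monomial u a ∈ I K ^ 2 := by
  classical
  -- two elements of `C`, with multiplicity
  obtain ⟨i, hi, j, hj, hij⟩ : ∃ i ∈ C, ∃ j ∈ C,
      Finsupp.single i 1 + Finsupp.single j 1 ≤ u := by
    obtain ⟨i, hi, hui⟩ : ∃ i ∈ C, u i ≠ 0 := by
      by_contra hcon
      push Not at hcon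
      rw [Finset.sum_eq_zero hcon] at hu
      omega
    by_cases h2 : 2 ≤ u i
    · refine ⟨i, hi, i, hi, fun l => ?_⟩
      by_cases hl : i = l
      · subst hl
        simpa using h2
      · simp [hl]
    · obtain ⟨j, hj, hjne, huj⟩ : ∃ j ∈ C, j ≠ i ∧ u j ≠ 0 := by
        by_contra hcon
        push Not at hcon
        rw [Finset.sum_eq_single_of_mem i hi hcon] at hu
        exact h2 hu
      refine ⟨i, hi, j, hj, fun l => ?_⟩
      by_cases hl : i = l
      · subst hl
        simp [hjne]
        omega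
      · by_cases hl' : j = l
        · subst hl'
          simp [hl]
          omega
        · simp [hl, hl']
  obtain ⟨T, hT, hTi⟩ := tree_insert C hC i hi
  obtain ⟨T', hT', hTj⟩ := tree_insert C hC j hj
  have hle : ∀ (T : Finset (Fin 6)) (i : Fin 6), T ⊆ insert i Cᶜ →
      ind T ≤ ind Cᶜ + Finsupp.single i 1 := by
    intro T i hT l
    rw [Finsupp.add_apply, ind_apply, ind_apply, Finsupp.single_apply]
    split_ifs with h1 h2 h3 h4 <;> try omega
    have := hT h1
    rw [Finset.mem_insert] at this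
    rcases this with h | h
    · exact absurd h.symm h4
    · exact absurd h h2
  have h1 : ind T + ind T' ≤ (ind Cᶜ + ind Cᶜ) + u := by
    calc ind T + ind T' ≤ (ind Cᶜ + Finsupp.single i 1) + (ind Cᶜ + Finsupp.single j 1) :=
          add_le_add (hle T i hTi) (hle T' j hTj)
      _ = (ind Cᶜ + ind Cᶜ) + (Finsupp.single i 1 + Finsupp.single j 1) := by abel
      _ ≤ _ := by gcongr
  obtain ⟨v, hv⟩ := exists_add_of_le h1
  have h2 : monomial (ind Cᶜ + ind Cᶜ) (1 : K) * monomial u a =
      monomial v a * (monomial (ind T) 1 * monomial (ind T') 1) := by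
    rw [monomial_mul, monomial_mul, monomial_mul, hv, one_mul, mul_one, mul_one, add_comm v]
  rw [h2, pow_two]
  exact Ideal.mul_mem_left _ _ (Ideal.mul_mem_mul (mem_I_of_le hT) (mem_I_of_le hT'))

theorem mem_symbolicPower_iff {K : Type*} [Field K] {f : MvPolynomial (Fin 6) K} :
    f ∈ symbolicPower (I K) 2 ↔ ∀ C ∈ bonds, f ∈ wtIdeal K (wt C) 2 := by
  constructor
  · intro h C hC
    have hass : IsAssociated (I K) (wtIdeal K (wt C) 1) := isAssociated_iff.2 ⟨C, hC, rfl⟩
    have : (wtIdeal K (wt C) 1).IsPrime := hass.1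
    rw [symbolicPower] at h
    have h1 := (Submodule.mem_iInf _).1 ((Submodule.mem_iInf _).1 h (wtIdeal K (wt C) 1)) hass
    rw [Ideal.mem_comap, IsLocalization.algebraMap_mem_map_algebraMap_iff
      (wtIdeal K (wt C) 1).primeCompl] at h1
    obtain ⟨s, hs, hsf⟩ := h1
    refine mem_wtIdeal_of_mul hs ?_
    have := pow_le_wtIdeal (I_le K hC) 2 hsf
    simpa using this
  · intro h
    rw [symbolicPower]
    refine (Submodule.mem_iInf _).2 fun p => (Submodule.mem_iInf _).2 fun hp => ?_
    have : p.IsPrime := hp.1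
    obtain ⟨C, hC, rfl⟩ := isAssociated_iff.1 hp
    rw [Ideal.mem_comap, IsLocalization.algebraMap_mem_map_algebraMap_iff
      (wtIdeal K (wt C) 1).primeCompl]
    refine ⟨monomial (ind Cᶜ + ind Cᶜ) 1, ?_, ?_⟩
    · change ¬ (monomial (ind Cᶜ + ind Cᶜ) (1 : K) ∈ wtIdeal K (wt C) 1)
      rw [monomial_mem_wtIdeal, weight_wt]
      have : ∑ i ∈ C, (ind Cᶜ + ind Cᶜ) i = 0 := Finset.sum_eq_zero fun i hi => by simp [hi]
      omega
    · rw [← support_sum_monomial_coeff f, Finset.mul_sum]
      refine Ideal.sum_mem _ fun u hu => mul_mem_sq hC ?_ _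
      have := h C hC u hu
      rwa [weight_wt] at this

/-! ### The component of degree four -/

/-- the three cycles of length four -/
def cycles : Finset (Finset (Fin 6)) := {{1, 2, 3, 4}, {0, 2, 3, 5}, {0, 1, 4, 5}}

theorem cycle_of_weights (u : Fin 6 →₀ ℕ) (hu : u.degree = 4)
    (h : ∀ C ∈ bonds, 2 ≤ ∑ i ∈ C, u i) : ∃ T ∈ cycles, u = ind T := by
  have hs : u 0 + u 1 + u 2 + u 3 + u 4 + u 5 = 4 := by
    rw [Finsupp.degree_eq_sum, Fin.sum_univ_six] at hu
    exact hu
  have e1 := h {0, 1, 2} (by decide)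
  have e2 := h {0, 3, 4} (by decide)
  have e3 := h {1, 3, 5} (by decide)
  have e4 := h {2, 4, 5} (by decide)
  have e5 := h {1, 2, 3, 4} (by decide)
  have e6 := h {0, 2, 3, 5} (by decide)
  have e7 := h {0, 1, 4, 5} (by decide)
  simp only [Finset.sum_insert, Finset.sum_singleton, Finset.mem_insert, Finset.mem_singleton,
    Fin.isValue, Fin.reduceEq, or_self, not_false_eq_true] at e1 e2 e3 e4 e5 e6 e7
  have key : (u 0 = 0 ∧ u 1 = 1 ∧ u 2 = 1 ∧ u 3 = 1 ∧ u 4 = 1 ∧ u 5 = 0) ∨
      (u 0 = 1 ∧ u 1 = 0 ∧ u 2 = 1 ∧ u 3 = 1 ∧ u 4 = 0 ∧ u 5 = 1) ∨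
      (u 0 = 1 ∧ u 1 = 1 ∧ u 2 = 0 ∧ u 3 = 0 ∧ u 4 = 1 ∧ u 5 = 1) := by omega
  rcases key with k | k | k
  · refine ⟨{1, 2, 3, 4}, by decide, ?_⟩
    ext i
    obtain ⟨k0, k1, k2, k3, k4, k5⟩ := k
    fin_cases i <;> simp [k0, k1, k2, k3, k4, k5]
  · refine ⟨{0, 2, 3, 5}, by decide, ?_⟩
    ext i
    obtain ⟨k0, k1, k2, k3, k4, k5⟩ := k
    fin_cases i <;> simp [k0, k1, k2, k3, k4, k5]
  · refine ⟨{0, 1, 4, 5}, by decide, ?_⟩
    ext i
    obtain ⟨k0, k1, k2, k3, k4, k5⟩ := k
    fin_cases i <;> simp [k0, k1, k2, k3, k4, k5]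

theorem cycle_bond : ∀ T ∈ cycles, ∀ C ∈ bonds, 2 ≤ (C ∩ T).card := by decide +kernel

theorem degree_ind (T : Finset (Fin 6)) : (ind T).degree = T.card := by
  rw [Finsupp.degree_eq_sum]
  simp only [ind_apply]
  rw [Finset.sum_ite_mem, Finset.univ_inter, Finset.sum_const, smul_eq_mul, mul_one]

theorem component_eq (K : Type*) [Field K] :
    component (symbolicPower (I K) 2) 4 =
      Ideal.span ((fun u => monomial u (1 : K)) '' ((cycles.image ind : Finset _) : Set _)) := by
  classical
  apply le_antisymm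
  · rw [component, Ideal.span_le]
    rintro f ⟨hf, hf4⟩
    rw [SetLike.mem_coe, mem_ideal_span_monomial_image]
    intro u hu
    rw [mem_symbolicPower_iff] at hf
    have hdeg : u.degree = 4 := by
      by_contra h
      exact (mem_support_iff.1 hu) (hf4.coeff_eq_zero h)
    obtain ⟨T, hT, rfl⟩ := cycle_of_weights u hdeg (fun C hC => by
      have := hf C hC u hu
      rwa [weight_wt] at this)
    exact ⟨ind T, by simpa using ⟨T, hT, rfl⟩, le_rfl⟩
  · rw [Ideal.span_le]
    rintro _ ⟨_, hu, rfl⟩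
    rw [Finset.coe_image] at hu
    obtain ⟨T, hT, rfl⟩ := hu
    refine Ideal.subset_span ⟨?_, ?_⟩
    · rw [mem_symbolicPower_iff]
      intro C hC
      rw [monomial_mem_wtIdeal, weight_wt]
      simp only [ind_apply]
      rw [Finset.sum_ite_mem, Finset.sum_const, smul_eq_mul, mul_one]
      exact cycle_bond T hT C hC
    · refine isHomogeneous_monomial _ ?_
      rw [degree_ind]
      revert T
      decide

/-- For every field there is a polymatroidal ideal `I` in six variables, generated in degree three,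
such that the symbolic power `I ^ (2)` is not componentwise linear. -/
theorem result : ∀ (K : Type u) [Field K], ∃ I : Ideal (MvPolynomial (Fin 6) K),
    IsPolymatroidal I ∧ ¬ IsComponentwiseLinear (symbolicPower I 2) := by
  intro K _
  classical
  refine ⟨I K, ⟨B, isPolymatroidBases_B, rfl⟩, fun hlin => ?_⟩
  have h := hlin 4
  rw [component_eq] at h
  have hinj : ∀ T T' : Finset (Fin 6), ind T = ind T' → T = T' := by
    intro T T' h
    ext i
    have := DFunLike.congr_fun h i
    simp only [ind_apply] at this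
    by_cases h1 : i ∈ T <;> by_cases h2 : i ∈ T' <;> simp_all
  refine not_hasLinearResolution 4 (cycles.image ind) ?_ (m1 := ind {1, 2, 3, 4})
    (m2 := ind {0, 2, 3, 5}) ?_ ?_ ?_ ?_ h
  · intro m hm
    obtain ⟨T, hT, rfl⟩ := Finset.mem_image.1 hm
    rw [degree_ind]
    clear hm
    revert T
    decide
  · exact Finset.mem_image_of_mem _ (by decide)
  · exact Finset.mem_image_of_mem _ (by decide)
  · intro h
    have := hinj _ _ h
    revert this
    decide
  · intro m hm hne i hle
    obtain ⟨T, hT, rfl⟩ := Finset.mem_image.1 hm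
    have hne' : T ≠ {1, 2, 3, 4} := by
      rintro rfl
      exact hne rfl
    have hcomb : ∀ T ∈ cycles, T ≠ {1, 2, 3, 4} → ∀ i : Fin 6,
        ∃ l, l ∈ T ∧ l ∉ ({1, 2, 3, 4} : Finset (Fin 6)) ∧ l ≠ i := by decide +kernel
    obtain ⟨l, hl1, hl2, hl3⟩ := hcomb T hT hne' i
    have := hle l
    rw [Finsupp.add_apply, ind_apply, ind_apply, if_pos hl1, if_neg hl2,
      Finsupp.single_apply, if_neg (Ne.symm hl3)] at this
    omega

end Pool.Agent.Results.MP_d6f7e8_al.SpanningTreesK4
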